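import Mathlib

namespace Pool.Agent.Results.MP_417bbc_pr.BiasedErgodic

open MeasureTheory Measure Filter Topology Finset BoundedContinuousFunction

/-- configurations on the square lattice; `true` is the symbol 1 -/
abbrev Cfg := ℤ × ℤ → Bool

/-- the nearest-neighbour majority automaton -/
def F (x : Cfg) : Cfg := fun i =>
  decide (3 ≤ (x i).toNat + (x (i + (1, 0))).toNat + (x (i + (-1, 0))).toNat
    + (x (i + (0, 1))).toNat + (x (i + (0, -1))).toNat)

/-- the law on `Bool` given by row `a` of the noise matrix -/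
noncomputable def row (θ : Bool → Bool → ℝ) (a : Bool) : Measure Bool :=
  ENNReal.ofReal (θ a false) • dirac false + ENNReal.ofReal (θ a true) • dirac true

/-- one step of the perturbed automaton, acting on measures -/
noncomputable def Phi (θ : Bool → Bool → ℝ) (μ : Measure Cfg) : Measure Cfg :=
  μ.bind fun x => infinitePi fun i => row θ (F x i)

/-- unique invariant probability measure, attracting every initial measure weakly -/
def IsErgodic (θ : Bool → Bool → ℝ) : Prop :=
  ∃ π : Measure Cfg, IsProbabilityMeasure π ∧ Phi θ π = π ∧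
    (∀ π' : Measure Cfg, IsProbabilityMeasure π' → Phi θ π' = π' → π' = π) ∧
    ∀ μ : Measure Cfg, IsProbabilityMeasure μ → ∀ f : Cfg →ᵇ ℝ,
      Tendsto (fun t => ∫ x, f x ∂((Phi θ)^[t] μ)) atTop (𝓝 (∫ x, f x ∂π))

abbrev Xi := ℤ × ℤ → Fin 3

section op
variable {X : Type} [TopologicalSpace X] [CompactSpace X] [MeasurableSpace X] [BorelSpace X]
  [SecondCountableTopology X] (ν : Measure Xi) [IsProbabilityMeasure ν] (G : X → Xi → X)
  (hc : ∀ ξ, Continuous (G · ξ)) (hm : ∀ x, Measurable (G x))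

omit [SecondCountableTopology X] in
include hm in
lemma intg (f : C(X, ℝ)) (x : X) : Integrable (fun ξ => f (G x ξ)) ν :=
  Integrable.of_bound (f.continuous.measurable.comp (hm x)).aestronglyMeasurable ‖f‖
    (Eventually.of_forall fun _ => f.norm_coe_le_norm _)

noncomputable def op : C(X, ℝ) →ₗ[ℝ] C(X, ℝ) where
  toFun f := ⟨fun x => ∫ ξ, f (G x ξ) ∂ν, continuous_of_dominated (bound := fun _ => ‖f‖)
    (fun x => (intg ν G hm f x).1) (fun _ => Eventually.of_forall fun _ => f.norm_coe_le_norm _)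
    (integrable_const _) (Eventually.of_forall fun ξ => f.continuous.comp (hc ξ))⟩
  map_add' f g := by
    ext x; simpa using integral_add (intg ν G hm f x) (intg ν G hm g x)
  map_smul' c f := by
    ext x; simpa using integral_const_mul c _

lemma op_apply (f : C(X, ℝ)) (x : X) : op ν G hc hm f x = ∫ ξ, f (G x ξ) ∂ν := rfl

lemma op_mono {f g : C(X, ℝ)} (h : f ≤ g) (t : ℕ) : (op ν G hc hm ^ t) f ≤ (op ν G hc hm ^ t) g := by
  induction t with
  | zero => simpa using h
  | succ t ih =>
    rw [pow_succ', Module.End.mul_apply, Module.End.mul_apply]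
    intro x
    exact integral_mono (intg ν G hm _ x) (intg ν G hm _ x) fun ξ => ih _

lemma op_one (t : ℕ) : (op ν G hc hm ^ t) 1 = 1 := by
  induction t with
  | zero => simp
  | succ t ih =>
    rw [pow_succ', Module.End.mul_apply, ih]
    ext x; simp [op_apply]

end op

def g (k : Fin 3) (y : Bool) : Bool := ![y, true, false] k

def G (x : Cfg) (ξ : Xi) : Cfg := fun i => g (ξ i) (F x i)

lemma F_cont : Continuous F := by
  refine continuous_pi fun i => ?_
  have : Continuous fun x : Cfg => (x i, x (i + (1, 0)), x (i + (-1, 0)), x (i + (0, 1)), x (i + (0, -1))) := by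
    fun_prop
  exact (continuous_of_discreteTopology (f := fun p : Bool × Bool × Bool × Bool × Bool =>
    decide (3 ≤ p.1.toNat + p.2.1.toNat + p.2.2.1.toNat + p.2.2.2.1.toNat + p.2.2.2.2.toNat))).comp this

lemma G_cont (ξ : Xi) : Continuous (G · ξ) :=
  continuous_pi fun i => (continuous_of_discreteTopology (f := g (ξ i))).comp
    ((continuous_apply i).comp F_cont)

lemma G_meas2 : Measurable (fun p : Cfg × Xi => G p.1 p.2) := by
  refine measurable_pi_lambda _ fun i => ?_
  have h1 : Measurable fun p : Cfg × Xi => (p.2 i, F p.1 i) :=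
    ((measurable_pi_apply i).comp measurable_snd).prodMk
        ((measurable_pi_apply i).comp (F_cont.measurable.comp measurable_fst))
  exact (measurable_of_countable (fun p : Fin 3 × Bool => g p.1 p.2)).comp h1

lemma G_meas (x : Cfg) : Measurable (G x) := G_meas2.comp measurable_prodMk_left

def G2 (p : Cfg × Cfg) (ξ : Xi) : Cfg × Cfg := (G p.1 ξ, G p.2 ξ)

lemma G2_cont (ξ : Xi) : Continuous (G2 · ξ) :=
  ((G_cont ξ).comp continuous_fst).prodMk ((G_cont ξ).comp continuous_snd)

lemma G2_meas (p : Cfg × Cfg) : Measurable (G2 p) := (G_meas _).prodMk (G_meas _)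

variable (ν : Measure Xi) [IsProbabilityMeasure ν]

noncomputable def P := op ν G G_cont G_meas
noncomputable def Q := op ν G2 G2_cont G2_meas

def dif (f : C(Cfg, ℝ)) : C(Cfg × Cfg, ℝ) := ⟨fun p => f p.1 - f p.2, by fun_prop⟩

lemma Q_dif (f : C(Cfg, ℝ)) (t : ℕ) : (Q ν ^ t) (dif f) = dif ((P ν ^ t) f) := by
  induction t with
  | zero => simp
  | succ t ih =>
    rw [pow_succ', Module.End.mul_apply, ih, pow_succ', Module.End.mul_apply]
    ext p
    exact integral_sub (intg ν G G_meas _ p.1) (intg ν G G_meas _ p.2)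

def I (i : ℤ × ℤ) : C(Cfg × Cfg, ℝ) := ⟨fun p => if p.1 i = p.2 i then 0 else 1,
  (continuous_of_discreteTopology (f := fun q : Bool × Bool => if q.1 = q.2 then (0 : ℝ) else 1)).comp
    (by fun_prop : Continuous fun p : Cfg × Cfg => (p.1 i, p.2 i))⟩

lemma I_nonneg (i p) : 0 ≤ I i p := by
  simp only [I, ContinuousMap.coe_mk]; split_ifs <;> norm_num

noncomputable def ball (i : ℤ × ℤ) (r : ℕ) : Finset (ℤ × ℤ) := Icc (i.1 - r) (i.1 + r) ×ˢ Icc (i.2 - r) (i.2 + r)

lemma card_ball (i r) : ((ball i r).card : ℝ) = (2 * r + 1) ^ 2 := by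
  have h : ∀ a : ℤ, (a + r + 1 - (a - r)).toNat = 2 * r + 1 := fun a => by omega
  simp only [ball, card_product, Int.card_Icc, h]; push_cast; ring

lemma finite_speed (i : ℤ × ℤ) (t : ℕ) : ∀ p : Cfg × Cfg, (∀ j ∈ ball i t, p.1 j = p.2 j) →
    (Q ν ^ t) (I i) p = 0 := by
  induction t with
  | zero =>
    intro p h
    have := h i (by simp [ball])
    simp [I, this]
  | succ t ih =>
    intro p h
    rw [pow_succ', Module.End.mul_apply]
    change ∫ ξ, ((Q ν ^ t) (I i)) (G2 p ξ) ∂ν = 0
    have : ∀ ξ, ((Q ν ^ t) (I i)) (G2 p ξ) = 0 := by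
      intro ξ
      refine ih _ fun j hj => ?_
      simp only [ball, mem_product, mem_Icc] at hj h
      push_cast at h
      simp only [G2, G, F]
      rw [h j (by omega), h (j + (1, 0)) (by simp; omega), h (j + (-1, 0)) (by simp; omega),
        h (j + (0, 1)) (by simp; omega), h (j + (0, -1)) (by simp; omega)]
    simp [this]

def blk (i : ℤ × ℤ) : Finset (ℤ × ℤ) := {i, i + (1, 0), i + (0, 1), i + (1, 1)}

lemma card_blk (i : ℤ × ℤ) : (blk i).card = 4 := by
  obtain ⟨a, b⟩ := i
  simp [blk, card_insert_of_notMem]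

def Lk (i : ℤ × ℤ) (p : Cfg × Cfg) : Prop := ∀ j ∈ blk i, p.1 j = true ∧ p.2 j = true

instance (i p) : Decidable (Lk i p) := by unfold Lk; infer_instance

def U (i : ℤ × ℤ) : C(Cfg × Cfg, ℝ) := ⟨fun p => if Lk i p then 0 else 1, by
  have : Continuous fun p : Cfg × Cfg => fun j : blk i => (p.1 j, p.2 j) := by fun_prop
  have h2 := (continuous_of_discreteTopology (f := fun q : blk i → Bool × Bool =>
    if ∀ j, (q j).1 = true ∧ (q j).2 = true then (0 : ℝ) else 1)).comp this
  convert h2 using 2 with p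
  simp only [Lk, Function.comp, Subtype.forall]⟩

lemma F_blk {x : Cfg} {i : ℤ × ℤ} (h : ∀ j ∈ blk i, x j = true) : ∀ j ∈ blk i, F x j = true := by
  obtain ⟨a, b⟩ := i
  have h1 : x (a, b) = true := h _ (by simp [blk])
  have h2 : x (a + 1, b) = true := h _ (by simp [blk])
  have h3 : x (a, b + 1) = true := h _ (by simp [blk])
  have h4 : x (a + 1, b + 1) = true := h _ (by simp [blk])
  intro j hj
  simp only [blk, mem_insert, mem_singleton] at hj
  rcases hj with rfl | rfl | rfl | rfl <;> simp [F, h1, h2, h3, h4] <;> omega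

lemma QU_le (i p) (E : Set Xi) (hE : MeasurableSet E) (h : ∀ ξ ∈ E, Lk i (G2 p ξ)) :
    Q ν (U i) p ≤ 1 - ν.real E := by
  have : ∫ ξ, (1 - E.indicator 1 ξ : ℝ) ∂ν = 1 - ν.real E := by
    rw [integral_sub (integrable_const _) ((integrable_const _).indicator hE), integral_indicator_one hE]
    simp
  rw [← this]
  refine integral_mono (intg ν G2 G2_meas _ p)
    ((integrable_const _).sub ((integrable_const _).indicator hE)) fun ξ => ?_
  change (if _ then _ else _) ≤ (1 - E.indicator 1 ξ : ℝ)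
  by_cases hξ : ξ ∈ E
  · simp [h ξ hξ, hξ]
  · simp only [hξ, not_false_eq_true, Set.indicator_of_notMem]; split_ifs <;> norm_num

lemma cle {f g : C(Cfg × Cfg, ℝ)} (h : ∀ p, f p ≤ g p) : f ≤ g := h
lemma app {f g : C(Cfg × Cfg, ℝ)} (h : f ≤ g) (p : Cfg × Cfg) : f p ≤ g p := h p

theorem osc {α β : ℝ} (hα : α ≤ 1) (hβ : 0 ≤ β)
    (h1 : ∀ i, α ≤ ν.real (Set.pi (blk i) fun _ => {1}))
    (h2 : ∀ i, 1 - β ≤ ν.real (Set.pi (blk i) fun _ => {2}ᶜ))
    (τ : ℕ) (hτ : ((1 - α) ^ τ + τ * β) * (2 * τ + 1) ^ 2 ≤ 1 / 2) (f : C(Cfg, ℝ)) {ε : ℝ} (hε : 0 < ε) :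
    ∀ᶠ t in atTop, ∀ x y, (P ν ^ t) f x - (P ν ^ t) f y ≤ ε := by
  have hone : ∀ t, (Q ν ^ t) 1 = 1 := op_one ν _ _ _
  have hmono : ∀ {f g : C(Cfg × Cfg, ℝ)}, f ≤ g → ∀ t, (Q ν ^ t) f ≤ (Q ν ^ t) g := op_mono ν _ _ _
  have hQU : ∀ i, Q ν (U i) ≤ (1 - α) • U i + β • 1 := by
    refine fun i => cle fun p => ?_
    by_cases hp : Lk i p
    · have := QU_le ν i p _ (MeasurableSet.pi (blk i).countable_toSet
        fun _ _ => (MeasurableSet.of_discrete (s := ({2}ᶜ : Set (Fin 3))))) (by
          intro ξ hξ j hj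
          have a1 := F_blk (fun j hj => (hp j hj).1) j hj
          have a2 := F_blk (fun j hj => (hp j hj).2) j hj
          have a3 : ξ j ≠ 2 := hξ j hj
          simp only [G2, G, a1, a2, and_self]
          generalize ξ j = k at a3
          revert k; decide)
      have h3 := h2 i
      simp [U, hp] at this ⊢
      linarith
    · have := QU_le ν i p _ (MeasurableSet.pi (blk i).countable_toSet
        fun _ _ => (MeasurableSet.of_discrete (s := ({1} : Set (Fin 3))))) (by
          intro ξ hξ j hj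
          have a3 : ξ j = 1 := hξ j hj
          simp [G2, G, a3, g])
      have h3 := h1 i
      simp [U, hp] at this ⊢
      linarith
  have hU1 : ∀ i, U i ≤ 1 := by
    refine fun i => cle fun p => ?_
    change (if _ then _ else _) ≤ (1 : ℝ); split_ifs <;> norm_num
  have hQt : ∀ i (t : ℕ), (Q ν ^ t) (U i) ≤ ((1 - α) ^ t + t * β) • 1 := by
    intro i t
    induction t with
    | zero => simpa using hU1 i
    | succ t ih =>
      rw [pow_succ, Module.End.mul_apply]
      refine (hmono (hQU i) t).trans ?_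
      rw [map_add, map_smul, map_smul, hone]
      refine cle fun p => ?_
      have := app ih p
      simp only [ContinuousMap.add_apply, ContinuousMap.smul_apply, ContinuousMap.one_apply,
        smul_eq_mul, mul_one] at this ⊢
      have h3 := mul_le_mul_of_nonneg_left this (sub_nonneg.2 hα)
      have h4 : 0 ≤ α := by
        by_contra hc
        push_neg at hc
        have h5 : (1 : ℝ) ≤ (1 - α) ^ τ := one_le_pow₀ (by linarith)
        have h6 : (1 : ℝ) ≤ (2 * τ + 1) ^ 2 := one_le_pow₀ (by have := Nat.cast_nonneg (α := ℝ) τ; linarith)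
        have h7 : (0 : ℝ) ≤ τ * β := by positivity
        nlinarith
      have h8 : (0 : ℝ) ≤ α * (t * β) := by positivity
      push_cast
      rw [pow_succ]
      nlinarith
  have hIU : ∀ i, I i ≤ U i := by
    refine fun i => cle fun p => ?_
    change (if _ then _ else _) ≤ (if _ then _ else _ : ℝ)
    by_cases hp : Lk i p
    · have := hp i (by simp [blk])
      simp [hp, this.1, this.2]
    · simp only [hp, if_false]; split_ifs <;> norm_num
  set ρ := (1 - α) ^ τ + τ * β
  have hρ : 0 ≤ ρ := add_nonneg (pow_nonneg (by linarith) _) (by positivity)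
  have hstep : ∀ i, (Q ν ^ τ) (I i) ≤ ρ • ∑ j ∈ ball i τ, I j := by
    refine fun i => cle fun p => ?_
    simp only [ContinuousMap.smul_apply, ContinuousMap.sum_apply, smul_eq_mul]
    by_cases h : ∀ j ∈ ball i τ, p.1 j = p.2 j
    · rw [finite_speed ν i τ p h]
      exact mul_nonneg hρ (sum_nonneg fun j _ => I_nonneg j p)
    · push_neg at h
      obtain ⟨j, hj, hne⟩ := h
      have h3 : I j p ≤ ∑ j ∈ ball i τ, I j p := single_le_sum (fun j _ => I_nonneg j p) hj
      have h4 : I j p = 1 := if_neg hne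
      have h5 := app ((hmono (hIU i) τ).trans (hQt i τ)) p
      simp only [ContinuousMap.smul_apply, ContinuousMap.one_apply, smul_eq_mul, mul_one] at h5
      nlinarith
  have hk : ∀ (k : ℕ) i, (Q ν ^ (τ * k)) (I i) ≤ ((1 / 2 : ℝ) ^ k) • 1 := by
    intro k
    induction k with
    | zero => intro i; simpa using (hIU i).trans (hU1 i)
    | succ k ih =>
      intro i
      rw [Nat.mul_succ, pow_add, Module.End.mul_apply]
      refine (hmono (hstep i) _).trans ?_
      rw [map_smul, _root_.map_sum]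
      refine cle fun p => ?_
      simp only [ContinuousMap.smul_apply, ContinuousMap.sum_apply, ContinuousMap.one_apply,
        smul_eq_mul, mul_one]
      have h3 : ∑ j ∈ ball i τ, (Q ν ^ (τ * k)) (I j) p ≤ (ball i τ).card • (1 / 2 : ℝ) ^ k :=
        sum_le_card_nsmul _ _ _ fun j _ => by simpa using app (ih j) p
      rw [nsmul_eq_mul, card_ball] at h3
      have h4 := mul_le_mul_of_nonneg_left h3 hρ
      have h5 : (0 : ℝ) ≤ (1 / 2) ^ k := by positivity
      rw [pow_succ]
      nlinarith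
  have hall : ∀ (k t : ℕ), τ * k ≤ t → ∀ i, (Q ν ^ t) (I i) ≤ ((1 / 2 : ℝ) ^ k) • 1 := by
    intro k t ht i
    obtain ⟨s, rfl⟩ := Nat.exists_eq_add_of_le' ht
    rw [pow_add, Module.End.mul_apply]
    refine (hmono (hk k i) s).trans ?_
    rw [map_smul, hone]
  obtain ⟨Λ, hΛ⟩ : ∃ Λ : Finset (ℤ × ℤ), ∀ p : Cfg × Cfg, (∀ j ∈ Λ, p.1 j = p.2 j) → dif f p < ε / 2 := by
    obtain ⟨u, hu⟩ := (isCompact_univ (X := Cfg × Cfg)).elim_finite_subfamily_closed
      (fun j : ℤ × ℤ => {p | p.1 j = p.2 j ∧ ε / 2 ≤ dif f p})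
      (fun j => (isClosed_eq (by fun_prop) (by fun_prop)).inter
        (isClosed_le continuous_const (dif f).continuous)) (by
        rw [Set.univ_inter, Set.eq_empty_iff_forall_notMem]
        intro p hp
        simp only [Set.mem_iInter, Set.mem_setOf_eq] at hp
        have h3 : p.1 = p.2 := funext fun j => (hp j).1
        have h4 := (hp 0).2
        simp only [dif, ContinuousMap.coe_mk, h3, sub_self] at h4
        linarith)
    refine ⟨u, fun p hp => ?_⟩
    by_contra hc
    push_neg at hc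
    rw [Set.univ_inter, Set.eq_empty_iff_forall_notMem] at hu
    exact hu p (by simp only [Set.mem_iInter, Set.mem_setOf_eq]; exact fun j hj => ⟨hp j hj, hc⟩)
  have hd : dif f ≤ (ε / 2) • 1 + ‖dif f‖ • ∑ j ∈ Λ, I j := by
    refine cle fun p => ?_
    simp only [ContinuousMap.add_apply, ContinuousMap.smul_apply, ContinuousMap.sum_apply,
      ContinuousMap.one_apply, smul_eq_mul, mul_one]
    have h0 : 0 ≤ ∑ j ∈ Λ, I j p := sum_nonneg fun j _ => I_nonneg j p
    by_cases h : ∀ j ∈ Λ, p.1 j = p.2 j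
    · have := hΛ p h
      have := mul_nonneg (norm_nonneg (dif f)) h0
      linarith
    · push_neg at h
      obtain ⟨j, hj, hne⟩ := h
      have h3 : I j p ≤ ∑ j ∈ Λ, I j p := single_le_sum (fun j _ => I_nonneg j p) hj
      have h4 : I j p = 1 := if_neg hne
      have h5 := (le_abs_self _).trans ((dif f).norm_coe_le_norm p)
      have := norm_nonneg (dif f)
      nlinarith
  obtain ⟨k, hk'⟩ : ∃ k : ℕ, ‖dif f‖ * (Λ.card * (1 / 2 : ℝ) ^ k) ≤ ε / 2 := by
    have := ((tendsto_pow_atTop_nhds_zero_of_lt_one (r := (1 / 2 : ℝ)) (by norm_num) (by norm_num)).const_mul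
      (Λ.card : ℝ)).const_mul ‖dif f‖
    simp only [mul_zero] at this
    exact (this.eventually (ge_mem_nhds (half_pos hε))).exists
  filter_upwards [eventually_ge_atTop (τ * k)] with t ht x y
  have h3 := app (hmono hd t) (x, y)
  rw [Q_dif, map_add, map_smul, map_smul, hone, _root_.map_sum] at h3
  simp only [ContinuousMap.add_apply, ContinuousMap.smul_apply, ContinuousMap.sum_apply,
      ContinuousMap.one_apply, smul_eq_mul, mul_one] at h3
  have h4 : ∑ j ∈ Λ, (Q ν ^ t) (I j) (x, y) ≤ Λ.card • (1 / 2 : ℝ) ^ k :=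
    sum_le_card_nsmul _ _ _ fun j _ => by simpa using app (hall k t ht j) (x, y)
  rw [nsmul_eq_mul] at h4
  have h5 := mul_le_mul_of_nonneg_left h4 (norm_nonneg (dif f))
  have h6 : dif ((P ν ^ t) f) (x, y) = (P ν ^ t) f x - (P ν ^ t) f y := rfl
  linarith

lemma cint (f : C(Cfg, ℝ)) (μ : Measure Cfg) [IsProbabilityMeasure μ] : Integrable f μ :=
  Integrable.of_bound f.continuous.measurable.aestronglyMeasurable ‖f‖
    (Eventually.of_forall fun _ => f.norm_coe_le_norm _)

theorem ergodic_of (θ : Bool → Bool → ℝ)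
    (hθ : ∀ x, (infinitePi fun i => row θ (F x i)) = ν.map (G x))
    (ho : ∀ (f : C(Cfg, ℝ)) (ε : ℝ), 0 < ε → ∀ᶠ t in atTop, ∀ x y, (P ν ^ t) f x - (P ν ^ t) f y ≤ ε) :
    IsErgodic θ := by
  have hPhi : ∀ μ : Measure Cfg, IsProbabilityMeasure μ →
      Phi θ μ = (μ.prod ν).map fun p => G p.1 p.2 := by
    intro μ _
    have e : ∀ s, MeasurableSet s → ∀ x, ν.map (G x) s = ν (Prod.mk x ⁻¹' ((fun p : Cfg × Xi => G p.1 p.2) ⁻¹' s)) :=
      fun s hs x => by rw [map_apply (G_meas x) hs]; rfl
    ext s hs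
    simp only [Phi, hθ]
    rw [bind_apply hs, map_apply G_meas2 hs, Measure.prod_apply (G_meas2 hs)]
    · exact lintegral_congr (e s hs)
    · refine (measurable_of_measurable_coe _ fun s hs => ?_).aemeasurable
      simp only [e s hs]
      exact measurable_measure_prodMk_left (G_meas2 hs)
  have hprob : ∀ μ : Measure Cfg, IsProbabilityMeasure μ → IsProbabilityMeasure (Phi θ μ) := by
    intro μ h
    rw [hPhi μ h]; exact isProbabilityMeasure_map G_meas2.aemeasurable
  have hprobt : ∀ t, ∀ μ : Measure Cfg, IsProbabilityMeasure μ → IsProbabilityMeasure ((Phi θ)^[t] μ) := by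
    intro t
    induction t with
    | zero => exact fun _ h => h
    | succ t ih => exact fun μ h => ih _ (hprob μ h)
  have hint : ∀ μ : Measure Cfg, IsProbabilityMeasure μ → ∀ f : C(Cfg, ℝ),
      ∫ x, f x ∂(Phi θ μ) = ∫ x, P ν f x ∂μ := by
    intro μ h f
    rw [hPhi μ h, integral_map G_meas2.aemeasurable f.continuous.measurable.aestronglyMeasurable,
      integral_prod]
    · rfl
    · exact Integrable.of_bound (f.continuous.measurable.comp G_meas2).aestronglyMeasurable ‖f‖
        (Eventually.of_forall fun _ => f.norm_coe_le_norm _)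
  have hintt : ∀ t, ∀ μ : Measure Cfg, IsProbabilityMeasure μ → ∀ f : C(Cfg, ℝ),
      ∫ x, f x ∂((Phi θ)^[t] μ) = ∫ x, (P ν ^ t) f x ∂μ := by
    intro t
    induction t with
    | zero => intro μ _ f; rfl
    | succ t ih =>
      intro μ h f
      rw [Function.iterate_succ_apply, ih _ (hprob μ h), hint μ h, pow_succ', Module.End.mul_apply]
  have hcmp : ∀ (h : C(Cfg, ℝ)) (ε : ℝ), (∀ x y, h x - h y ≤ ε) → ∀ μ1 μ2 : Measure Cfg,
      IsProbabilityMeasure μ1 → IsProbabilityMeasure μ2 → ∫ x, h x ∂μ1 - ∫ x, h x ∂μ2 ≤ ε := by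
    intro h ε hh μ1 μ2 _ _
    have a1 : ∀ y, ∫ x, h x ∂μ1 - ε ≤ h y := by
      intro y
      have := integral_mono (cint h μ1) (integrable_const (h y + ε)) fun x => by
        have := hh x y; linarith
      simp only [integral_const, probReal_univ, smul_eq_mul, one_mul] at this
      linarith
    have := integral_mono (integrable_const _) (cint h μ2) a1
    simp only [integral_const, probReal_univ, smul_eq_mul, one_mul] at this
    linarith
  let m : ℕ → ProbabilityMeasure Cfg := fun t => ⟨(Phi θ)^[t] (dirac fun _ => true), hprobt t _ inferInstance⟩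
  obtain ⟨π, -, hπ⟩ := isCompact_univ.ultrafilter_le_nhds ((hyperfilter ℕ).map m) (by simp)
  have hπ' := ProbabilityMeasure.tendsto_iff_forall_integral_tendsto.1 (show Tendsto m (hyperfilter ℕ) (𝓝 π) from hπ)
  have conv : ∀ μ : Measure Cfg, IsProbabilityMeasure μ → ∀ f : C(Cfg, ℝ),
      Tendsto (fun t => ∫ x, (P ν ^ t) f x ∂μ) atTop (𝓝 (∫ x, f x ∂(π : Measure Cfg))) := by
    intro μ h f
    rw [Metric.tendsto_nhds]
    intro ε hε
    filter_upwards [ho f (ε / 2) (half_pos hε)] with t ht
    have a1 : ∀ᶠ s in (hyperfilter ℕ : Filter ℕ),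
        ∫ x, mkOfCompact f x ∂(m s : Measure Cfg) ∈ Metric.closedBall (∫ x, (P ν ^ t) f x ∂μ) (ε / 2) := by
      refine (eventually_ge_atTop t).filter_mono Nat.hyperfilter_le_atTop |>.mono fun s hs => ?_
      obtain ⟨r, rfl⟩ := Nat.exists_eq_add_of_le hs
      have : ∫ x, mkOfCompact f x ∂(m (t + r) : Measure Cfg)
          = ∫ x, (P ν ^ t) f x ∂((Phi θ)^[r] (dirac fun _ => true)) := by
        rw [← hintt t _ (hprobt r _ inferInstance), ← Function.iterate_add_apply]; rfl
      rw [this, Metric.mem_closedBall, Real.dist_eq, abs_le]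
      have b1 := hcmp _ _ ht _ μ (hprobt r (dirac fun _ => true) inferInstance) h
      have b2 := hcmp _ _ ht μ _ h (hprobt r (dirac fun _ => true) inferInstance)
      constructor <;> linarith
    have a2 := Metric.isClosed_closedBall.mem_of_tendsto (hπ' (mkOfCompact f)) a1
    rw [Metric.mem_closedBall, dist_comm] at a2
    exact a2.trans_lt (half_lt_self hε)
  have hp : IsProbabilityMeasure (π : Measure Cfg) := inferInstance
  refine ⟨π, hp, ?_, fun π' h1 h2 => ?_, fun μ h f => ?_⟩
  · have := hprob _ hp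
    refine ext_of_forall_integral_eq_of_IsFiniteMeasure fun f => ?_
    have a1 := conv _ hp (P ν f.toContinuousMap)
    have a2 := (conv _ hp f.toContinuousMap).comp (tendsto_add_atTop_nat 1)
    have a3 := hint _ hp f.toContinuousMap
    refine a3.trans (tendsto_nhds_unique a1 ?_)
    exact a2
  · refine ext_of_forall_integral_eq_of_IsFiniteMeasure fun f => ?_
    have a1 := conv _ h1 f.toContinuousMap
    simp only [← hintt _ _ h1, Function.iterate_fixed h2] at a1
    exact tendsto_nhds_unique tendsto_const_nhds a1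
  · have a1 := conv _ h f.toContinuousMap
    simp only [← hintt _ _ h] at a1
    exact a1

noncomputable def nz (a b : ℝ) : Measure (Fin 3) :=
  ENNReal.ofReal (1 - a - b) • dirac 0 + ENNReal.ofReal a • dirac 1 + ENNReal.ofReal b • dirac 2

theorem result (ε₀ : ℝ) (hε₀ : 0 < ε₀) :
    ∃ θ : Bool → Bool → ℝ, (∀ a b, 0 < θ a b) ∧ (∀ a, θ a false + θ a true = 1) ∧
      max (1 - θ false false) (1 - θ true true) ≤ ε₀ ∧ IsErgodic θ := by
  set a := min ε₀ (1 / 3) with ha
  have ha0 : 0 < a := lt_min hε₀ (by norm_num)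
  have ha1 : a ≤ 1 / 3 := min_le_right _ _
  have ha2 : a ≤ ε₀ := min_le_left _ _
  have hα0 : 0 < a ^ 4 := by positivity
  have hα1 : a ^ 4 ≤ 1 := pow_le_one₀ ha0.le (by linarith)
  obtain ⟨τ, hτ1, hτ⟩ : ∃ τ : ℕ, 1 ≤ τ ∧ (τ : ℝ) ^ 2 * (1 - a ^ 4) ^ τ ≤ 1 / 36 := by
    have := tendsto_pow_const_mul_const_pow_of_abs_lt_one 2 (r := 1 - a ^ 4)
      (abs_lt.2 ⟨by linarith, by linarith⟩)
    exact ((eventually_ge_atTop 1).and (this.eventually (ge_mem_nhds (by norm_num)))).exists
  have hτ1' : (1 : ℝ) ≤ τ := by exact_mod_cast hτ1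
  set b := min a (1 / (16 * τ * (2 * τ + 1) ^ 2)) with hb
  have hb0 : 0 < b := lt_min ha0 (by positivity)
  have hb1 : b ≤ a := min_le_left _ _
  have hb2 : b * (16 * τ * (2 * τ + 1) ^ 2) ≤ 1 := by
    rw [← le_div_iff₀ (by positivity)]; exact min_le_right _ _
  have hc : 0 ≤ 1 - a - b := by linarith
  have e1 : ENNReal.ofReal (1 - a - b) + ENNReal.ofReal a = ENNReal.ofReal (1 - b) := by
    rw [← ENNReal.ofReal_add hc ha0.le]; congr 1; ring
  have e2 : ENNReal.ofReal (1 - a - b) + ENNReal.ofReal b = ENNReal.ofReal (1 - a) := by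
    rw [← ENNReal.ofReal_add hc hb0.le]; congr 1; ring
  haveI : IsProbabilityMeasure (nz a b) := ⟨by
    simp only [nz, Measure.coe_add, Measure.coe_smul, Pi.add_apply, Pi.smul_apply, measure_univ, smul_eq_mul, mul_one]
    rw [e1, ← ENNReal.ofReal_add (by linarith) hb0.le]; simp⟩
  let θ : Bool → Bool → ℝ := fun u v => match u, v with
    | false, false => 1 - a | false, true => a | true, false => b | true, true => 1 - b
  refine ⟨θ, ?_, ?_, ?_, ergodic_of (infinitePi fun _ => nz a b) θ ?_ fun f ε hε =>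
    osc _ (α := a ^ 4) (β := 4 * b) hα1 (by positivity) ?_ ?_ τ ?_ f hε⟩
  · rintro (_ | _) (_ | _) <;> simp only [θ] <;> linarith
  · rintro (_ | _) <;> simp [θ]
  · simp only [θ]; exact max_le (by linarith) (by linarith)
  · intro x
    have := infinitePi_map_pi (fun _ : ℤ × ℤ => nz a b) (f := fun i k => g k (F x i))
      fun i => measurable_of_countable _
    refine Eq.trans ?_ this.symm
    congr 1
    funext i
    have hm : ∀ y, Measurable fun k => g k y := fun y => measurable_of_countable _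
    simp only [nz, Measure.map_add _ _ (hm _), Measure.map_smul, map_dirac' (hm _)]
    cases F x i
    · simp only [row, θ, g, ← e2, add_smul]; simp; abel
    · simp only [row, θ, g, ← e1, add_smul]; simp; abel
  · intro i
    rw [Measure.real, infinitePi_pi _ fun _ _ => MeasurableSet.of_discrete, prod_const, card_blk]
    simp [nz, ha0.le]
  · intro i
    rw [Measure.real, infinitePi_pi _ fun _ _ => MeasurableSet.of_discrete, prod_const, card_blk]
    have : nz a b {2}ᶜ = ENNReal.ofReal (1 - b) := by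
      rw [← e1]; simp [nz]
    rw [this, ENNReal.toReal_pow, ENNReal.toReal_ofReal (by linarith)]
    have := one_add_mul_le_pow (a := -b) (by linarith) 4
    push_cast at this
    have e : (1 + -b) = 1 - b := by ring
    rw [e] at this
    linarith
  · have h1 : (0 : ℝ) ≤ (1 - a ^ 4) ^ τ := pow_nonneg (by linarith) _
    have h2 : (2 * τ + 1 : ℝ) ^ 2 ≤ 9 * τ ^ 2 := by nlinarith
    have h3 := mul_le_mul_of_nonneg_left h2 h1
    nlinarith

end Pool.Agent.Results.MP_417bbc_pr.BiasedErgodic
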